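import Pool.Agent.H40.EGD.Targets

/-!
# An invariant set of the billiard map depends only on the direction
-/

namespace Pool.Agent.H27.EGD

open MeasureTheory Set Metric Filter Topology Pool.Agent.H93.BL Pool.Agent.H40.EGD
open Pool.Agent.H93.EG (InvG T_MAIN)

theorem RIG (hMAIN : T_MAIN) (hCST : T_CST) (hFXM : T_FXM) (hFXG : T_FXG) (hREL : T_REL)
    (hREF : T_REF) (hIOX : T_IOX) : T_RIG := by
  intro ι _ P X hX hInv
  have hm := hFXM ι P X hX
  have hG := hFXG ι P X hm
  obtain ⟨x₀, hx₀⟩ := hCST ι P (FX P X) hG (hMAIN ι P (FX P X) hG)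
  have hfm : Measurable (FX P X x₀) := hm.comp measurable_prodMk_left
  have hrel := hREL ι P X (FX P X x₀) hX hfm hx₀
  refine ⟨{w | FX P X x₀ w = 1}, hfm (measurableSet_singleton 1), hREF ι P X _ hrel, ?_⟩
  intro i
  filter_upwards [hrel i, hIOX ι P X hInv i] with z h1 h2
  exact h2.symm.trans h1

end Pool.Agent.H27.EGD
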